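import Mathlib

set_option autoImplicit false

/-!
Formed spaces in a form common to symplectic, orthogonal and unitary spaces.
-/

namespace Pool.Agent.TH431.WP

variable {F V : Type} [Field F] [AddCommGroup V] [Module F V]

/-- A formed space: a sesquilinear form `B` and a set `S` of singular vectors. -/
structure FS (F V : Type) [Field F] [AddCommGroup V] [Module F V] where
  σ : F →+* F
  B : V →ₛₗ[σ] V →ₗ[F] F
  S : Set V
  a : ℕ
  σσ : ∀ c, σ (σ c) = c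
  refl : ∀ x y, B x y = 0 → B y x = 0
  sing : ∀ x ∈ S, B x x = 0
  zero : (0 : V) ∈ S
  add : ∀ x ∈ S, ∀ y ∈ S, B x y = 0 → x + y ∈ S
  smul : ∀ (c : F), ∀ x ∈ S, c • x ∈ S
  adj : ∀ z ∈ S, ∀ v, B z v = 1 → Nat.card {c : F // v + c • z ∈ S} = a
  apos : 0 < a
  rad : ∀ z ∈ S, z ≠ 0 → ∃ v, B z v ≠ 0

/-- the isometries -/
def Iso (Φ : FS F V) : Subgroup (V ≃ₗ[F] V) where
  carrier := {g | (∀ x y, Φ.B (g x) (g y) = Φ.B x y) ∧ ∀ x, g x ∈ Φ.S ↔ x ∈ Φ.S}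
  mul_mem' := by
    rintro g h ⟨hg, hg'⟩ ⟨hh, hh'⟩
    refine ⟨fun x y => ?_, fun x => ?_⟩
    · show Φ.B (g (h x)) (g (h y)) = _
      rw [hg, hh]
    · show g (h x) ∈ Φ.S ↔ _
      rw [hg', hh']
  one_mem' := ⟨fun _ _ => rfl, fun _ => Iff.rfl⟩
  inv_mem' := by
    rintro g ⟨hg, hg'⟩
    refine ⟨fun x y => ?_, fun x => ?_⟩
    · show Φ.B (g.symm x) (g.symm y) = _
      have := hg (g.symm x) (g.symm y)
      rw [LinearEquiv.apply_symm_apply, LinearEquiv.apply_symm_apply] at this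
      exact this.symm
    · show g.symm x ∈ Φ.S ↔ _
      rw [← hg' (g.symm x), LinearEquiv.apply_symm_apply]

/-- transitivity of the groups of Siegel transformations -/
def Siegel (Φ : FS F V) : Prop :=
  ∀ z ∈ Φ.S, ∀ v ∈ Φ.S, ∀ v' ∈ Φ.S, Φ.B z v = 1 → Φ.B z v' = 1 →
    ∃ g ∈ Iso Φ, g z = z ∧ g v = v' ∧ (∀ w, Φ.B z w = 0 → ∃ c : F, g w = w + c • z) ∧
      (∀ w, Φ.B z w = 0 → Φ.B v w = 0 → Φ.B v' w = 0 → g w = w)

/-- the group of the `g` in `G` fixing `z` and inducing the identity on `z^⊥ / z` -/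
def U (Φ : FS F V) (G : Subgroup (V ≃ₗ[F] V)) (z : V) :
    Subgroup (V ≃ₗ[F] V) where
  carrier := {g | g ∈ G ∧ g z = z ∧ ∀ w, Φ.B z w = 0 → ∃ c : F, g w = w + c • z}
  mul_mem' := by
    rintro g h ⟨hg, hgz, hgw⟩ ⟨hh, hhz, hhw⟩
    refine ⟨G.mul_mem hg hh, ?_, fun w hw => ?_⟩
    · show g (h z) = z
      rw [hhz, hgz]
    · obtain ⟨c, hc⟩ := hhw w hw
      obtain ⟨d, hd⟩ := hgw w hw
      refine ⟨d + c, ?_⟩
      show g (h w) = _
      rw [hc, map_add, map_smul, hgz, hd, add_smul]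
      abel
  one_mem' := ⟨G.one_mem, rfl, fun w _ => ⟨0, by simp⟩⟩
  inv_mem' := by
    rintro g ⟨hg, hgz, hgw⟩
    refine ⟨G.inv_mem hg, ?_, fun w hw => ?_⟩
    · show g.symm z = z
      rw [LinearEquiv.symm_apply_eq, hgz]
    · obtain ⟨c, hc⟩ := hgw w hw
      refine ⟨-c, ?_⟩
      show g.symm w = _
      rw [LinearEquiv.symm_apply_eq, map_add, map_smul, hgz, hc, add_assoc, ← add_smul]
      simp

end Pool.Agent.TH431.WP
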